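import Pool.Agent.Lib.MP_5349a4_pr.M.Base
import Pool.Agent.Lib.MP_5349a4_pr.M.Iface2

/-!
# REV: the reverse Simon-Lieb inequality for balls, Paper.md (4.1)
-/

set_option autoImplicit false
open MeasureTheory Set
open scoped ENNReal NNReal

namespace Pool.Agent.Lib.MP_5349a4_pr.H54

variable {d : ℕ}

/-- the measure representing `f ↦ wt lam S f 0` -/
noncomputable def wm (lam : ℝ≥0) (S : Set (Eu d)) : Measure (Eu d) :=
  Measure.dirac 0 + (lam : ℝ≥0∞) • ((volume.restrict S).withDensity (fun y => tau lam S 0 y))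

instance (lam : ℝ≥0) (S : Set (Eu d)) : SFinite (wm lam S) := by
  unfold wm; infer_instance

theorem meas_tau0 (F : TauFacts d) (lam : ℝ≥0) {S : Set (Eu d)} (hS : Dom S) :
    Measurable (fun y : Eu d => tau lam S 0 y) := by
  have h := (F.meas lam S hS).comp (measurable_prodMk_left (x := (0 : Eu d)))
  exact h

theorem lintegral_wm (F : TauFacts d) (lam : ℝ≥0) {S : Set (Eu d)} (hS : Dom S)
    (f : Eu d → ℝ≥0∞) (hf : Measurable f) : ∫⁻ b, f b ∂wm lam S = wt lam S f 0 := by
  unfold wm wt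
  rw [lintegral_add_measure, lintegral_dirac' _ hf, lintegral_smul_measure, smul_eq_mul,
    lintegral_withDensity_eq_lintegral_mul _ (meas_tau0 F lam hS) hf]
  rfl

theorem wt_mono (lam : ℝ≥0) {S : Set (Eu d)} (hS : MeasurableSet S) (f g : Eu d → ℝ≥0∞)
    (h0 : f 0 ≤ g 0) (h : ∀ b ∈ S, f b ≤ g b) : wt lam S f 0 ≤ wt lam S g 0 := by
  unfold wt
  refine add_le_add h0 ?_
  refine mul_le_mul_right ?_ _
  exact setLIntegral_mono' hS fun b hb => mul_le_mul_right (h b hb) _

theorem conv_even (f g : Eu d → ℝ≥0∞) (hf : ∀ z, f (-z) = f z) (hg : ∀ z, g (-z) = g z)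
    (z : Eu d) : conv f g (-z) = conv f g z := by
  unfold conv
  rw [← lintegral_neg_eq_self (μ := (volume : Measure (Eu d))) (fun u => f u * g (-z - u))]
  refine lintegral_congr fun u => ?_
  rw [hf, show -z - -u = -(z - u) by abel, hg]

theorem meas_conv (f g : Eu d → ℝ≥0∞) (hf : Measurable f) (hg : Measurable g) :
    Measurable (conv f g) := by
  unfold conv
  apply Measurable.lintegral_prod_right'
    (f := fun q : Eu d × Eu d => f q.2 * g (q.1 - q.2))
  fun_prop

/-- the common estimate for the diagrams in (4.1) -/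
theorem key (F : TauFacts d) (lam : ℝ≥0) (T H : Eu d → ℝ≥0∞) (hT : Measurable T)
    (hH : Measurable H) (hev : ∀ z, H (-z) = H z) (s : ℝ) (hs : 0 ≤ s) (A : Set (Eu d))
    (hA : MeasurableSet A) (hAs : ∀ z ∈ A, s < ‖z‖) :
    ∫⁻ z in A, ∫⁻ w, wt lam (bal (0 : Eu d) s) (fun b => T (z - b) * T (w - b)) 0 * H (w - z)
      ≤ wt lam (bal (0 : Eu d) s)
        (fun b : Eu d => ∫⁻ u : Eu d, ind (s - ‖b‖ ≤ ‖u‖) * (T u * conv T H u)) 0 := by
  have hS : Dom (bal (0 : Eu d) s) := dom_bal 0 s
  have hm3 : Measurable fun q : (Eu d × Eu d) × Eu d =>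
      T (q.1.1 - q.2) * T (q.1.2 - q.2) * H (q.1.2 - q.1.1) := by fun_prop
  have e1 : ∀ z w : Eu d, wt lam (bal 0 s) (fun b => T (z - b) * T (w - b)) 0 * H (w - z)
      = ∫⁻ b, T (z - b) * T (w - b) * H (w - z) ∂wm lam (bal 0 s) := by
    intro z w
    have hmb : Measurable fun b => T (z - b) * T (w - b) := by fun_prop
    rw [← lintegral_wm F lam hS _ hmb, lintegral_mul_const _ hmb]
  simp only [e1]
  have e2 : ∀ z : Eu d, ∫⁻ w : Eu d, (∫⁻ b, T (z - b) * T (w - b) * H (w - z) ∂wm lam (bal 0 s))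
      = ∫⁻ b, (∫⁻ w : Eu d, T (z - b) * T (w - b) * H (w - z)) ∂wm lam (bal 0 s) := by
    intro z
    refine lintegral_lintegral_swap ?_
    apply Measurable.aemeasurable
    unfold Function.uncurry
    fun_prop
  simp only [e2]
  have hJm : Measurable fun q : Eu d × Eu d => ∫⁻ w, T (q.1 - q.2) * T (w - q.2) * H (w - q.1) := by
    apply Measurable.lintegral_prod_right'
      (f := fun q : (Eu d × Eu d) × Eu d => T (q.1.1 - q.1.2) * T (q.2 - q.1.2) * H (q.2 - q.1.1))
    fun_prop
  rw [lintegral_lintegral_swap (f := fun (z b : Eu d) =>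
    ∫⁻ w, T (z - b) * T (w - b) * H (w - z)) hJm.aemeasurable]
  have hJ : ∀ z b : Eu d, ∫⁻ w, T (z - b) * T (w - b) * H (w - z)
      = T (z - b) * conv T H (z - b) := by
    intro z b
    have h1 : ∀ w : Eu d, T (z - b) * T (w - b) * H (w - z) = T (z - b) * (T (w - b) * H (w - z)) :=
      fun w => mul_assoc _ _ _
    simp only [h1]
    rw [lintegral_const_mul _ (by fun_prop)]
    congr 1
    rw [← lintegral_add_right_eq_self (μ := (volume : Measure (Eu d)))
      (fun w => T (w - b) * H (w - z)) b]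
    unfold conv
    refine lintegral_congr fun v => ?_
    rw [show v + b - b = v by abel, show v + b - z = -((z - b) - v) by abel, hev]
  simp only [hJ]
  have hcm := meas_conv T H hT hH
  have hGm : Measurable fun b : Eu d => ∫⁻ z in A, T (z - b) * conv T H (z - b) := by
    apply Measurable.lintegral_prod_right'
      (f := fun q : Eu d × Eu d => T (q.2 - q.1) * conv T H (q.2 - q.1))
    fun_prop
  rw [lintegral_wm F lam hS _ hGm]
  have hb : ∀ b ∈ bal (0 : Eu d) s, ∫⁻ z in A, T (z - b) * conv T H (z - b)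
      ≤ ∫⁻ u, ind (s - ‖b‖ ≤ ‖u‖) * (T u * conv T H u) := by
    intro b hb
    calc ∫⁻ z in A, T (z - b) * conv T H (z - b)
        ≤ ∫⁻ z in A, ind (s - ‖b‖ ≤ ‖z - b‖) * (T (z - b) * conv T H (z - b)) := by
          refine setLIntegral_mono' hA fun z hz => ?_
          have h1 : s - ‖b‖ ≤ ‖z - b‖ := by
            have h2 := norm_sub_norm_le z b
            have h3 := hAs z hz
            linarith
          rw [ind_of h1, one_mul]
      _ ≤ ∫⁻ z, ind (s - ‖b‖ ≤ ‖z - b‖) * (T (z - b) * conv T H (z - b)) :=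
          setLIntegral_le_lintegral _ _
      _ = ∫⁻ u, ind (s - ‖b‖ ≤ ‖u‖) * (T u * conv T H u) :=
          lintegral_sub_right_eq_self (μ := (volume : Measure (Eu d)))
            (fun u => ind (s - ‖b‖ ≤ ‖u‖) * (T u * conv T H u)) b
  refine wt_mono lam hS.1 _ _ (hb 0 ?_) hb
  simpa [bal] using hs

theorem const_mul_wt (lam : ℝ≥0) (S : Set (Eu d)) (c : ℝ≥0∞) (hc : c ≠ ∞) (f : Eu d → ℝ≥0∞) :
    c * wt lam S f 0 = wt lam S (fun b => c * f b) 0 := by
  unfold wt
  rw [mul_add, ← mul_assoc, mul_comm c (lam : ℝ≥0∞), mul_assoc, ← lintegral_const_mul' _ _ hc]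
  congr 2
  refine lintegral_congr fun y => ?_
  ring

theorem conv_sum (T : Eu d → ℝ≥0∞) (hT : Measurable T) (lam : ℝ≥0) (u : Eu d) :
    conv T (fun z => 2 * T z + lam * conv T T z) u
      = 2 * conv T T u + lam * conv T (conv T T) u := by
  have hc := meas_conv T T hT hT
  unfold conv at hc ⊢
  have e : ∀ v : Eu d, T v * (2 * T (u - v) + lam * ∫⁻ w, T w * T (u - v - w))
      = 2 * (T v * T (u - v)) + lam * (T v * ∫⁻ w, T w * T (u - v - w)) := fun v => by ring
  simp only [e]
  rw [lintegral_add_left (by fun_prop), lintegral_const_mul' _ _ (by simp),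
    lintegral_const_mul' _ _ (by simp)]

theorem kt_eq (lam : ℝ≥0) (hT : Measurable (tI lam : Eu d → ℝ≥0∞)) (t : ℝ) :
    (lam : ℝ≥0∞) * lam * ∫⁻ u : Eu d, ind (t ≤ ‖u‖) *
      (tI lam u * conv (tI lam) (fun z => 2 * tI lam z + lam * conv (tI lam) (tI lam) z) u)
      = Kt d lam t := by
  have hc := meas_conv (tI lam : Eu d → ℝ≥0∞) (tI lam) hT hT
  have hcc := meas_conv (tI lam : Eu d → ℝ≥0∞) _ hT hc
  have hi : Measurable fun u : Eu d => ind (t ≤ ‖u‖) :=
    measurable_ind (measurableSet_le measurable_const measurable_norm)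
  have e : ∀ u : Eu d, ind (t ≤ ‖u‖) *
      (tI lam u * conv (tI lam) (fun z => 2 * tI lam z + lam * conv (tI lam) (tI lam) z) u)
      = 2 * (ind (t ≤ ‖u‖) * (tI lam u * conv (tI lam) (tI lam) u))
        + lam * (ind (t ≤ ‖u‖) * (tI lam u * conv (tI lam) (conv (tI lam) (tI lam)) u)) := by
    intro u
    rw [conv_sum _ hT]
    ring
  simp only [e]
  rw [lintegral_add_left (by fun_prop), lintegral_const_mul' _ _ (by simp),
    lintegral_const_mul' _ _ (by simp)]
  unfold Kt tri box
  ring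

theorem tp2_le (hTG : TgStatement) (hd : 1 ≤ d) (lam : ℝ≥0)
    (htau : ∀ (V : Set (Eu d)) (x y : Eu d), Dom V → tau lam V x y ≤ tI lam (y - x))
    (S : Set (Eu d)) (hS : Dom S) (z w : Eu d) :
    tp2 (ad 1) (leb lam S) 0 z w ≤ wt lam S (fun b => tI lam (z - b) * tI lam (w - b)) 0 := by
  have : IsFiniteMeasure (leb lam S) := finite_leb lam hS.2
  have : NullSingletonClass (leb lam S) := noAtoms_leb hd lam S
  have hm : ∀ z : Eu d, MeasurableSet {a : Eu d | ad 1 a z} := fun z =>
    measurableSet_le (measurable_id.dist measurable_const) measurable_const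
  have h := hTG (Eu d) (leb lam S) (ad 1) (fun a => ad 1 a z) (fun a => ad 1 a w) 0 (madj_ad 1)
    (hm z) (hm w)
  have hh : ∀ (b z : Eu d), hp (ad 1) (leb lam S) (fun a => ad 1 a z) b ≤ tI lam (z - b) :=
    fun b z => htau S b z hS
  refine h.trans ?_
  unfold wt
  refine add_le_add (mul_le_mul' (hh 0 z) (hh 0 w)) ?_
  rw [lintegral_leb]
  refine mul_le_mul_right ?_ _
  exact lintegral_mono fun b => mul_le_mul_right (mul_le_mul' (hh b z) (hh b w)) _

theorem meas_W (F : TauFacts d) (lam : ℝ≥0) (T : Eu d → ℝ≥0∞) (hT : Measurable T)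
    {S : Set (Eu d)} (hS : Dom S) :
    Measurable fun q : Eu d × Eu d => wt lam S (fun b => T (q.1 - b) * T (q.2 - b)) 0 := by
  have e : ∀ q : Eu d × Eu d, wt lam S (fun b => T (q.1 - b) * T (q.2 - b)) 0
      = ∫⁻ b, T (q.1 - b) * T (q.2 - b) ∂wm lam S := fun q =>
    (lintegral_wm F lam hS _ (by fun_prop)).symm
  simp only [e]
  apply Measurable.lintegral_prod_right'
    (f := fun q : (Eu d × Eu d) × Eu d => T (q.1.1 - q.2) * T (q.1.2 - q.2))
  fun_prop

theorem add2 (W : Eu d → Eu d → ℝ≥0∞) (hW : Measurable fun q : Eu d × Eu d => W q.1 q.2)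
    (f g : Eu d → ℝ≥0∞) (hf : Measurable f) (A : Set (Eu d)) :
    (∫⁻ z in A, ∫⁻ w, W z w * f (w - z)) + (∫⁻ z in A, ∫⁻ w, W z w * g (w - z))
      = ∫⁻ z in A, ∫⁻ w, W z w * (f (w - z) + g (w - z)) := by
  have hmm : Measurable fun q : Eu d × Eu d => W q.1 q.2 * f (q.2 - q.1) := hW.mul (by fun_prop)
  rw [← lintegral_add_left hmm.lintegral_prod_right']
  refine lintegral_congr fun z => ?_
  have hmz : Measurable fun w : Eu d => W z w * f (w - z) := hmm.comp measurable_prodMk_left
  refine (lintegral_add_left hmz _).symm.trans ?_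
  refine lintegral_congr fun w => ?_
  ring

/-- the right hand side of (4.1) -/
theorem rhs_le (hTG : TgStatement) (hd : 1 ≤ d) (F : TauFacts d) (lam : ℝ≥0)
    (hT : Measurable (tI lam : Eu d → ℝ≥0∞)) (hTe : ∀ z : Eu d, tI lam (-z) = tI lam z)
    (htau : ∀ (V : Set (Eu d)) (x y : Eu d), Dom V → tau lam V x y ≤ tI lam (y - x))
    (s : ℝ) (hs : 0 ≤ s) (U : Set (Eu d)) (hU : Dom U) :
    (∫⁻ z, ∫⁻ w, tp2 (ad 1) (leb lam (bal (0 : Eu d) s)) 0 z w * tp (ad 1) (leb lam U) z w
        ∂leb lam (bal (0 : Eu d) s) ∂leb lam (U \ bal (0 : Eu d) s))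
      + (∫⁻ z, ∫⁻ z', tp2 (ad 1) (leb lam (bal (0 : Eu d) s)) 0 z z' * (tp (ad 1) (leb lam U) z z'
            + ∫⁻ b, tp (ad 1) (leb lam U) z b * tp (ad 1) (leb lam U) b z' ∂leb lam U)
            ∂leb lam (U \ bal (0 : Eu d) s) ∂leb lam (U \ bal (0 : Eu d) s))
      ≤ Err d lam s := by
  have hS : Dom (bal (0 : Eu d) s) := dom_bal 0 s
  have hUS : Dom (U \ bal (0 : Eu d) s) := hU.diff hS
  have hc := meas_conv (tI lam : Eu d → ℝ≥0∞) (tI lam) hT hT
  have hW := meas_W F lam (tI lam) hT hS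
  have h2 := tp2_le hTG hd lam htau _ hS
  have h1 : ∀ z w : Eu d, tp (ad 1) (leb lam U) z w ≤ tI lam (w - z) := fun z w => htau U z w hU
  have h3 : ∀ z w : Eu d, ∫⁻ b, tp (ad 1) (leb lam U) z b * tp (ad 1) (leb lam U) b w ∂leb lam U
      ≤ lam * conv (tI lam) (tI lam) (w - z) := by
    intro z w
    rw [lintegral_leb]
    refine mul_le_mul_right ?_ _
    calc ∫⁻ b in U, tp (ad 1) (leb lam U) z b * tp (ad 1) (leb lam U) b w
        ≤ ∫⁻ b, tI lam (b - z) * tI lam (w - b) :=
          (setLIntegral_le_lintegral _ _).trans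
            (lintegral_mono fun b => mul_le_mul' (h1 z b) (h1 b w))
      _ = ∫⁻ b, tI lam (b - z) * tI lam ((w - z) - (b - z)) := by
          refine lintegral_congr fun b => ?_
          rw [show (w - z) - (b - z) = w - b by abel]
      _ = conv (tI lam) (tI lam) (w - z) :=
          lintegral_sub_right_eq_self (μ := (volume : Measure (Eu d)))
            (fun u => tI lam u * tI lam ((w - z) - u)) z
  have b1 : (∫⁻ z, ∫⁻ w, tp2 (ad 1) (leb lam (bal (0 : Eu d) s)) 0 z w * tp (ad 1) (leb lam U) z w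
        ∂leb lam (bal (0 : Eu d) s) ∂leb lam (U \ bal (0 : Eu d) s))
      ≤ lam * (lam * ∫⁻ z in U \ bal (0 : Eu d) s, ∫⁻ w,
          wt lam (bal (0 : Eu d) s) (fun b => tI lam (z - b) * tI lam (w - b)) 0 * tI lam (w - z)) := by
    rw [lintegral_leb]
    refine mul_le_mul_right ?_ _
    rw [← lintegral_const_mul' _ _ (by simp)]
    refine lintegral_mono fun z => ?_
    rw [lintegral_leb]
    refine mul_le_mul_right ?_ _
    exact (setLIntegral_le_lintegral _ _).trans
      (lintegral_mono fun w => mul_le_mul' (h2 z w) (h1 z w))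
  have b2 : (∫⁻ z, ∫⁻ z', tp2 (ad 1) (leb lam (bal (0 : Eu d) s)) 0 z z' *
        (tp (ad 1) (leb lam U) z z'
            + ∫⁻ b, tp (ad 1) (leb lam U) z b * tp (ad 1) (leb lam U) b z' ∂leb lam U)
            ∂leb lam (U \ bal (0 : Eu d) s) ∂leb lam (U \ bal (0 : Eu d) s))
      ≤ lam * (lam * ∫⁻ z in U \ bal (0 : Eu d) s, ∫⁻ w,
          wt lam (bal (0 : Eu d) s) (fun b => tI lam (z - b) * tI lam (w - b)) 0 *
            (tI lam (w - z) + lam * conv (tI lam) (tI lam) (w - z))) := by
    rw [lintegral_leb]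
    refine mul_le_mul_right ?_ _
    rw [← lintegral_const_mul' _ _ (by simp)]
    refine lintegral_mono fun z => ?_
    rw [lintegral_leb]
    refine mul_le_mul_right ?_ _
    exact (setLIntegral_le_lintegral _ _).trans
      (lintegral_mono fun w => mul_le_mul' (h2 z w) (add_le_add (h1 z w) (h3 z w)))
  have hadd : (∫⁻ z in U \ bal (0 : Eu d) s, ∫⁻ w,
          wt lam (bal (0 : Eu d) s) (fun b => tI lam (z - b) * tI lam (w - b)) 0 * tI lam (w - z))
      + (∫⁻ z in U \ bal (0 : Eu d) s, ∫⁻ w,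
          wt lam (bal (0 : Eu d) s) (fun b => tI lam (z - b) * tI lam (w - b)) 0 *
            (tI lam (w - z) + lam * conv (tI lam) (tI lam) (w - z)))
      = ∫⁻ z in U \ bal (0 : Eu d) s, ∫⁻ w,
          wt lam (bal (0 : Eu d) s) (fun b => tI lam (z - b) * tI lam (w - b)) 0 *
            (fun z => 2 * tI lam z + lam * conv (tI lam) (tI lam) z) (w - z) := by
    have ha := add2 (fun z w => wt lam (bal (0 : Eu d) s)
      (fun b => tI lam (z - b) * tI lam (w - b)) 0) hW (tI lam)
      (fun u => tI lam u + lam * conv (tI lam) (tI lam) u) hT (U \ bal (0 : Eu d) s)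
    refine ha.trans ?_
    refine lintegral_congr fun z => lintegral_congr fun w => ?_
    congr 1
    ring
  have hk := key F lam (tI lam) (fun z => 2 * tI lam z + lam * conv (tI lam) (tI lam) z) hT
    (by fun_prop) (fun z => by simp only [hTe, conv_even _ _ hTe hTe]) s hs (U \ bal (0 : Eu d) s)
    hUS.1 (fun z hz => by
      have := hz.2
      simpa [bal] using this)
  calc _ ≤ _ := add_le_add b1 b2
    _ = lam * lam * ∫⁻ z in U \ bal (0 : Eu d) s, ∫⁻ w,
          wt lam (bal (0 : Eu d) s) (fun b => tI lam (z - b) * tI lam (w - b)) 0 *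
            (fun z => 2 * tI lam z + lam * conv (tI lam) (tI lam) z) (w - z) := by
        rw [← mul_add, ← mul_add, hadd, mul_assoc]
    _ ≤ lam * lam * wt lam (bal (0 : Eu d) s) (fun b : Eu d => ∫⁻ u : Eu d,
          ind (s - ‖b‖ ≤ ‖u‖) * (tI lam u *
            conv (tI lam) (fun z => 2 * tI lam z + lam * conv (tI lam) (tI lam) z) u)) 0 :=
        mul_le_mul_right hk _
    _ = Err d lam s := by
        rw [const_mul_wt _ _ _ (ENNReal.mul_ne_top ENNReal.coe_ne_top ENNReal.coe_ne_top)]
        unfold Err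
        congr 1
        funext b
        exact kt_eq lam hT _

/-- REV (4.1) -/
theorem rev (hA : RevAStatement) (hTG : TgStatement) (hTI : TInfStatement) (hTF : TauFStatement)
    (hSLB : SlbStatement) : RevStatement := by
  intro d hd lam hchi s hs
  have F := hTF d hd
  obtain ⟨hT, hT1, hTe, htau, -, hchie, -⟩ := hTI d hd F lam
  obtain ⟨-, hex, -, -, hvol, hmono⟩ := hSLB d hd F
  have main : ∀ m : ℕ, phi d lam s * vol d lam m ≤ chi d lam * (1 + Err d lam s) := by
    intro m
    obtain ⟨n, hn⟩ := exists_nat_ge (s + 1 + m)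
    set S : Set (Eu d) := bal 0 s with hSdef
    set U : Set (Eu d) := bal 0 (n : ℝ) with hUdef
    have hS : Dom S := dom_bal 0 s
    have hU : Dom U := dom_bal 0 _
    have hSU : S ⊆ U := Metric.closedBall_subset_closedBall (by linarith [Nat.cast_nonneg (α := ℝ) m])
    have hUS : Dom (U \ S) := hU.diff hS
    have : IsFiniteMeasure (leb lam S) := finite_leb lam hS.2
    have : NullSingletonClass (leb lam S) := noAtoms_leb hd lam S
    have : IsFiniteMeasure (leb lam (U \ S)) := finite_leb lam hUS.2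
    have : NullSingletonClass (leb lam (U \ S)) := noAtoms_leb hd lam (U \ S)
    have hsum : leb lam U = leb lam S + leb lam (U \ S) := leb_split lam hS.1 hU.1 hSU
    have hX : ∀ b : Eu d, 1 + ∫⁻ y, tp (ad 1) (leb lam S + leb lam (U \ S)) b y
        ∂(leb lam S + leb lam (U \ S)) ≤ chi d lam := by
      intro b
      rw [← hsum, lintegral_leb, hchie]
      refine add_le_add le_rfl (mul_le_mul_right ?_ _)
      calc ∫⁻ y in U, tp (ad 1) (leb lam U) b y
          ≤ ∫⁻ y, tI lam (y - b) :=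
            (setLIntegral_le_lintegral _ _).trans (lintegral_mono fun y => htau U b y hU)
        _ = ∫⁻ y, tI lam y :=
            lintegral_sub_right_eq_self (μ := (volume : Measure (Eu d))) (fun y => tI lam y) b
    have R := hA (Eu d) (leb lam S) (leb lam (U \ S)) (ad 1) (chi d lam) 0 (madj_ad 1)
      (ad_symm 1) hchi hX
    rw [← hsum] at R
    have hr := rhs_le hTG hd F lam hT hTe htau s hs U hU
    have hl : phi d lam s * vol d lam m ≤ ∫⁻ z, tp (ad 1) (leb lam S) 0 z *
        (1 + ∫⁻ y, tp (ad 1) (leb lam U) z y ∂leb lam U) ∂leb lam (U \ S) := by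
      unfold phi
      rw [← lintegral_mul_const _ (hex lam s hs).1, lintegral_leb,
        ← lintegral_const_mul' _ _ (by simp), ← lintegral_indicator hUS.1]
      refine lintegral_mono fun z => ?_
      by_cases hz : ex lam s z = 0
      · rw [hz, zero_mul]; exact zero_le
      · have hz1 := (hex lam s hs).2.2 z hz
        have hzU : z ∈ U \ S := by
          constructor
          · simp only [hUdef, bal, Metric.mem_closedBall, dist_zero_right]
            linarith [Nat.cast_nonneg (α := ℝ) m]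
          · simp only [hSdef, bal, Metric.mem_closedBall, dist_zero_right]
            linarith
        rw [Set.indicator_of_mem hzU]
        have hv : vol d lam m ≤ 1 + ∫⁻ y, tp (ad 1) (leb lam U) z y ∂leb lam U := by
          rw [← hvol lam z m (Nat.cast_nonneg m)]
          refine (hmono lam (fun _ => 1) z (bal z m) U (dom_bal _ _) hU ?_).trans (le_of_eq ?_)
          · refine Metric.closedBall_subset_closedBall' ?_
            rw [dist_zero_right]
            linarith
          · unfold wt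
            rw [lintegral_leb]
            simp only [mul_one]
            rfl
        unfold ex
        rw [ind_of hz1.1, mul_one, mul_assoc]
        exact mul_le_mul_right (mul_le_mul' le_rfl hv) _
    calc phi d lam s * vol d lam m ≤ _ := hl
      _ ≤ _ := R
      _ = chi d lam + chi d lam * ((∫⁻ z, ∫⁻ w, tp2 (ad 1) (leb lam S) 0 z w *
            tp (ad 1) (leb lam U) z w ∂leb lam S ∂leb lam (U \ S))
          + (∫⁻ z, ∫⁻ z', tp2 (ad 1) (leb lam S) 0 z z' * (tp (ad 1) (leb lam U) z z'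
            + ∫⁻ b, tp (ad 1) (leb lam U) z b * tp (ad 1) (leb lam U) b z' ∂leb lam U)
            ∂leb lam (U \ S) ∂leb lam (U \ S))) := by rw [mul_add, add_assoc]
      _ ≤ chi d lam + chi d lam * Err d lam s := add_le_add le_rfl (mul_le_mul_right hr _)
      _ = chi d lam * (1 + Err d lam s) := by rw [mul_add, mul_one]
  have h0 : chi d lam ≠ 0 := by
    rw [hchie]
    exact (lt_of_lt_of_le one_pos le_self_add).ne'
  have hfin : chi d lam * phi d lam s ≤ chi d lam * (1 + Err d lam s) := by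
    have : chi d lam * phi d lam s = ⨆ m : ℕ, phi d lam s * vol d lam m := by
      rw [mul_comm]
      unfold chi
      rw [ENNReal.mul_iSup]
    rw [this]
    exact iSup_le main
  exact (ENNReal.mul_le_mul_iff_right h0 hchi).1 hfin

end Pool.Agent.Lib.MP_5349a4_pr.H54
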